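import Pool.Agent.Helper462.Vnr.PPIso

/-!
# MP_337222_al: the isolation condition under elementary duality, for von Neumann regular rings
generated over their centre by fewer than `2^ℵ₀` elements

The Ziegler spectrum (pp formulas in one variable, pure-injective modules, topology generated by
the sets `(φ/ψ)`) is defined in `Pool/Agent/Helper462/Zg/Defs.lean`; `IsMinimalOn`,
`IsolationCondition`, the elementary dual `dual` and the dual closed set `dualSet` are in
`Pool/Agent/Helper462/Vnr/PPIso.lean`. Left `R`-modules are Mathlib's `R`-modules, right
`R`-modules are modules over `Rᵐᵒᵖ`.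
-/

namespace Pool.Agent.Results.MP_337222_al.RegularRings

open VNR Zg

universe u

/-- **Theorem.** Let `R` be a von Neumann regular ring which is generated, as an algebra over its
centre, by fewer than `2^ℵ₀` elements. Then every closed `X ⊆ Zg_R` and every closed subset of
`_R Zg` satisfies the isolation condition; in particular, if a closed `X ⊆ Zg_R` satisfies it
then so does its dual `DX ⊆ _R Zg`. -/
theorem result (R : Type u) [Ring R] (hreg : ∀ a : R, ∃ x, a * x * a = a)
    (G : Set R) (hG : Cardinal.mk G < Cardinal.continuum)
    (hgen : Algebra.adjoin (Subring.center R) G = ⊤) :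
    (∀ X : Set (ZieglerSpectrum Rᵐᵒᵖ), IsClosed X → IsolationCondition X) ∧
    (∀ Z : Set (ZieglerSpectrum R), IsClosed Z → IsolationCondition Z) ∧
    ∀ X : Set (ZieglerSpectrum Rᵐᵒᵖ), IsClosed X → IsolationCondition X →
      IsolationCondition (dualSet X) := by
  obtain ⟨G', hG', hspan⟩ := exists_span_of_adjoin R G hG hgen
  obtain ⟨G'', hG'', hspan'⟩ := exists_span_op G hG hgen
  exact ⟨fun X _ => isolationCondition (reg_op hreg) G'' hG'' hspan' X,
    fun Z _ => isolationCondition hreg G' hG' hspan Z,
    fun X _ _ => isolationCondition hreg G' hG' hspan (dualSet X)⟩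

end Pool.Agent.Results.MP_337222_al.RegularRings
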